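import Mathlib
import Pool.Agent.H23.GcdGold

open Pool.Agent.H23.GcdRun Filter Topology

theorem Pool.Agent.Results.MP_3f8e47_nt.Dichotomy.full
    (b : ℕ → ℤ) (hb1 : ∀ n, n % 3 = 1 → b n = 2) (hb2 : ∀ n, n % 3 = 2 → b n = 6)
    (hb0 : ∀ n, n % 3 = 0 → b n = 0)
    (a : ℕ → ℕ → ℤ) (f : ℕ → ℕ)
    (h1 : ∀ N : ℕ, 6 ≤ N → a N 1 = (N : ℤ) - 6)
    (hrec : ∀ N n : ℕ, 6 ≤ N → 2 ≤ n →
      a N n = a N (n - 1) - Int.gcd (a N (n - 1)) ((n : ℤ) + b n))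
    (hf : ∀ N : ℕ, 6 ≤ N → IsLeast {n | 1 ≤ n ∧ a N n = 0} (f N)) :
    (∀ N : ℕ, 6 ≤ N → ((f N + 1).Prime ∧ (f N + 3).Prime ∧ (f N + 7).Prime) ∨
      19 * f N + 71 ≤ 15 * N + 12 * Nat.sqrt (N + 2)) ∧
    (∀ c : ℝ, 15 / 19 < c → ∃ N₀ : ℕ, ∀ N : ℕ, N₀ ≤ N → c * N ≤ f N →
      (f N + 1).Prime ∧ (f N + 3).Prime ∧ (f N + 7).Prime) ∧
    (Tendsto (fun N : ℕ => (f N : ℝ) / N) atTop (𝓝 1) →
      ∃ N₀ : ℕ, ∀ N : ℕ, N₀ ≤ N → (f N + 1).Prime ∧ (f N + 3).Prime ∧ (f N + 7).Prime) := by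
  have hA : ∀ N : ℕ, 6 ≤ N → ((f N + 1).Prime ∧ (f N + 3).Prime ∧ (f N + 7).Prime) ∨
      19 * f N + 71 ≤ 15 * N + 12 * Nat.sqrt (N + 2) := fun N hN =>
    triple b hb1 hb2 hb0 N hN (a N) (h1 N hN) (fun n hn => hrec N n hN hn) (f N) (hf N hN)
  have hB : ∀ c : ℝ, 15 / 19 < c → ∀ᶠ N : ℕ in atTop, c * N ≤ f N →
      (f N + 1).Prime ∧ (f N + 3).Prime ∧ (f N + 7).Prime := by
    intro c hc
    filter_upwards [eventually_sqrt 15 (19 * c) (by linarith) 12 1 2, eventually_ge_atTop 6]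
      with N hN hN3 hcN
    rcases hA N hN3 with h | h
    · exact h
    · exfalso
      have h2 : 19 * (f N : ℝ) + 71 ≤ 15 * N + 12 * (Nat.sqrt (N + 2) : ℕ) := by exact_mod_cast h
      simp only [one_mul, Nat.cast_ofNat] at hN
      linarith
  refine ⟨hA, fun c hc => eventually_atTop.mp (hB c hc), fun ht => eventually_atTop.mp ?_⟩
  filter_upwards [hB (7 / 8) (by norm_num),
    ht.eventually (lt_mem_nhds (by norm_num : (7 / 8 : ℝ) < 1)),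
    eventually_ge_atTop 1] with N h2 h3 h4
  apply h2
  have h5 : (0 : ℝ) < N := by exact_mod_cast h4
  exact ((lt_div_iff₀ h5).mp h3).le

theorem Pool.Agent.Results.MP_3f8e47_nt.Dichotomy.result
    (b : ℕ → ℤ) (hb1 : ∀ n, n % 3 = 1 → b n = 2) (hb2 : ∀ n, n % 3 = 2 → b n = 6)
    (hb0 : ∀ n, n % 3 = 0 → b n = 0)
    (a : ℕ → ℕ → ℤ) (f : ℕ → ℕ)
    (h1 : ∀ N : ℕ, 6 ≤ N → a N 1 = (N : ℤ) - 6)
    (hrec : ∀ N n : ℕ, 6 ≤ N → 2 ≤ n →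
      a N n = a N (n - 1) - Int.gcd (a N (n - 1)) ((n : ℤ) + b n))
    (hf : ∀ N : ℕ, 6 ≤ N → IsLeast {n | 1 ≤ n ∧ a N n = 0} (f N)) :
    ∀ N : ℕ, 6 ≤ N → ((f N + 1).Prime ∧ (f N + 3).Prime ∧ (f N + 7).Prime) ∨
      19 * f N + 71 ≤ 15 * N + 12 * Nat.sqrt (N + 2) :=
  (Pool.Agent.Results.MP_3f8e47_nt.Dichotomy.full b hb1 hb2 hb0 a f h1 hrec hf).1
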